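import Pool.Agent.H4.FV.OddT

set_option autoImplicit false
set_option linter.unusedVariables false
set_option linter.unusedSectionVars false

/-! Task ODD-BP (for helper4): the invariants are measurable. -/

namespace Pool.Agent.H898.FV

open FirstOrder FirstOrder.Language
open Pool.Agent.W889.FO
open Pool.Agent.TH686.FO
open Pool.Agent.W889.VC (BP)
open Pool.Agent.N649.SG.Light (pw)
open Pool.Agent.R620.GG (hf)
open Pool.Agent.H4.VG (Cen LR LM ml FT eqT fd_cen)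
open Pool.Agent.H4.FV.Odd

section ft

variable {α : Type} {a b : LR.Structure ℕ → (α → ℕ) → ℕ}

theorem ft_pw (ha : FT a) (n : ℕ) : FT (fun S v => pw (ml S) (a S v) n) := by
  induction n with
  | zero => exact ha
  | succ n ih => exact ih.mul ha

theorem ft_iv (p : ℕ) (ha : FT a) : FT (fun S v => iv p (ml S) (a S v)) := ft_pw ha _

theorem ft_cmp (p : ℕ) (ha : FT a) (hb : FT b) :
    FT (fun S v => cm p (ml S) (a S v) (b S v)) :=
  ((ha.mul hb).mul (ft_iv p ha)).mul (ft_iv p hb)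

theorem ft_ad (p : ℕ) (ha : FT a) (hb : FT b) :
    FT (fun S v => ad p (ml S) (a S v) (b S v)) :=
  (ha.mul hb).mul (ft_pw (ft_cmp p hb ha) _)

theorem ft_sums {ι : Type} (p : ℕ) (l : List ι) (ha : FT a)
    {u : ι → LR.Structure ℕ → (α → ℕ) → ℕ} (hu : ∀ i, FT (u i)) :
    FT (fun S v => sums p (ml S) (a S v) (l.map fun i => u i S v)) := by
  induction l with
  | nil => exact ha
  | cons c l ih => exact ft_ad p (hu c) ih

theorem ft_sumsFn {n : ℕ} (p : ℕ) (ha : FT a) {u : Fin n → LR.Structure ℕ → (α → ℕ) → ℕ}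
    (hu : ∀ i, FT (u i)) :
    FT (fun S v => sums p (ml S) (a S v) (List.ofFn fun i => u i S v)) := by
  refine (ft_sums p (List.finRange n) ha hu).congr fun S v => ?_
  rw [List.ofFn_eq_map]

end ft

section bp

variable {Y : Type} [MeasurableSpace Y] {f : Y → LR.Structure ℕ}

theorem bp_eq (hb : ∀ (n : ℕ) (R : LR.Relations n) (a : Fin n → ℕ),
    BP (fun y => @Structure.RelMap LR ℕ (f y) n R a)) (hW : ∀ y, St0.W (f y)) {α : Type}
    {a b : LR.Structure ℕ → (α → ℕ) → ℕ} (ha : FT a) (hb' : FT b) (v : α → ℕ) :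
    BP (fun y => a (f y) v = b (f y) v) :=
  (eqT ha hb').bp hb hW v

theorem bp_idem (hb : ∀ (n : ℕ) (R : LR.Relations n) (a : Fin n → ℕ),
    BP (fun y => @Structure.RelMap LR ℕ (f y) n R a)) (hW : ∀ y, St0.W (f y)) (e : ℕ) :
    BP (fun y => ml (f y) e e = e) :=
  bp_eq hb hW (a := fun S (v : Unit → ℕ) => ml S (v ()) (v ())) (b := fun S v => v ())
    ((FT.var _).mul (FT.var _)) (FT.var _) (fun _ => e)

theorem bp_com (hb : ∀ (n : ℕ) (R : LR.Relations n) (a : Fin n → ℕ),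
    BP (fun y => @Structure.RelMap LR ℕ (f y) n R a)) (hW : ∀ y, St0.W (f y)) (x z : ℕ) :
    BP (fun y => ml (f y) x z = ml (f y) z x) :=
  bp_eq hb hW (a := fun S (v : Bool → ℕ) => ml S (v true) (v false))
    (b := fun S v => ml S (v false) (v true))
    ((FT.var _).mul (FT.var _)) ((FT.var _).mul (FT.var _)) (fun i => cond i x z)

theorem bp_ind (h : S_fd) (hb : ∀ (n : ℕ) (R : LR.Relations n) (a : Fin n → ℕ),
    BP (fun y => @Structure.RelMap LR ℕ (f y) n R a)) (hW : ∀ y, St0.W (f y)) (p : ℕ)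
    [Fact p.Prime] {ι : Type} [Fintype ι] (u : ι → ℕ) : BP (fun y => Ind p (ml (f y)) u) :=
  (h p ι (ι ⊕ Unit) (fun i _ v => v (Sum.inl i)) (fun _ v => v (Sum.inr ())) (fun _ => 0)
    (fun _ _ => 0) (fun i => FT.var _) (FT.var _)).2.2.1.bp hb hW (Sum.elim u (fun _ => 0))

theorem bp_inS (h : S_fd) (hb : ∀ (n : ℕ) (R : LR.Relations n) (a : Fin n → ℕ),
    BP (fun y => @Structure.RelMap LR ℕ (f y) n R a)) (hW : ∀ y, St0.W (f y)) (p : ℕ)
    [Fact p.Prime] {ι κ : Type} [Fintype ι] [Fintype κ] (u : ι → ℕ) (w : κ → ℕ) (e : ℕ)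
    (c : κ → ZMod p) : BP (fun y => InS p (ml (f y)) u (lc p (ml (f y)) e w c)) := by
  have h1 : FT (fun S (v : (ι ⊕ κ) ⊕ Unit → ℕ) => lc p (ml S) (v (Sum.inr ()))
      (fun i => v (Sum.inl (Sum.inr i))) c) :=
    (h p κ ((ι ⊕ κ) ⊕ Unit) (fun i _ v => v (Sum.inl (Sum.inr i))) (fun _ v => v (Sum.inr ())) c
      (fun _ _ => 0) (fun i => FT.var _) (FT.var _)).1
  exact (h p ι ((ι ⊕ κ) ⊕ Unit) (fun i _ v => v (Sum.inl (Sum.inl i))) _ (fun _ => 0)
    (fun _ _ => 0) (fun i => FT.var _) h1).2.2.2.bp hb hW (Sum.elim (Sum.elim u w) (fun _ => e))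

theorem bp_tri (h : S_fd) (hb : ∀ (n : ℕ) (R : LR.Relations n) (a : Fin n → ℕ),
    BP (fun y => @Structure.RelMap LR ℕ (f y) n R a)) (hW : ∀ y, St0.W (f y)) (p : ℕ)
    [Fact p.Prime] (v x z : ℕ) : BP (fun y => Tri p (ml (f y)) v x z) :=
  (bp_com hb hW v x).and ((bp_com hb hW v z).and (bp_ind h hb hW p ![v, x, z]))

theorem bp_vt (h : S_fd) (hb : ∀ (n : ℕ) (R : LR.Relations n) (a : Fin n → ℕ),
    BP (fun y => @Structure.RelMap LR ℕ (f y) n R a)) (hW : ∀ y, St0.W (f y)) (p : ℕ)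
    [Fact p.Prime] (v : ℕ) : BP (fun y => Vt p (ml (f y)) v) :=
  BP.ex fun x => BP.ex fun z => bp_tri h hb hW p v x z

theorem bp_qd (h : S_fd) (hb : ∀ (n : ℕ) (R : LR.Relations n) (a : Fin n → ℕ),
    BP (fun y => @Structure.RelMap LR ℕ (f y) n R a)) (hW : ∀ y, St0.W (f y)) (p : ℕ)
    [Fact p.Prime] (v w a b : ℕ) : BP (fun y => Qd p (ml (f y)) v w a b) := by
  refine (bp_vt h hb hW p v).and ((bp_vt h hb hW p w).and
    ((bp_ind h hb hW p ![v, w, a, b]).and (BP.all fun e => (bp_idem hb hW e).imp ?_)))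
  exact bp_eq hb hW (a := fun S (v : Fin 5 → ℕ) => ml S (cm p (ml S) (v 0) (v 1))
    (cm p (ml S) (v 2) (v 3))) (b := fun S v => v 4)
    ((ft_cmp p (FT.var _) (FT.var _)).mul (ft_cmp p (FT.var _) (FT.var _))) (FT.var _)
    ![v, w, a, b, e]

theorem bp_J1 (h : S_fd) (hb : ∀ (n : ℕ) (R : LR.Relations n) (a : Fin n → ℕ),
    BP (fun y => @Structure.RelMap LR ℕ (f y) n R a)) (hW : ∀ y, St0.W (f y)) (p : ℕ)
    [Fact p.Prime] (n : ℕ) : BP (fun y => J1 p (ml (f y)) n) := by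
  unfold J1
  refine BP.ex fun e => (bp_idem hb hW e).and (BP.ex fun u => BP.all fun k => BP.all fun m =>
    BP.all fun v => BP.all fun x => BP.all fun z => BP.all fun v' => BP.all fun w' =>
    BP.all fun a => BP.all fun b => ?_)
  refine (BP.all fun i => bp_tri h hb hW p _ _ _).imp
    ((BP.all fun i => bp_qd h hb hW p _ _ _ _).imp (BP.all fun c => (BP.const _).imp ?_))
  exact (bp_inS h hb hW p _ _ _ _).not

theorem bp_J2 (h : S_fd) (hb : ∀ (n : ℕ) (R : LR.Relations n) (a : Fin n → ℕ),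
    BP (fun y => @Structure.RelMap LR ℕ (f y) n R a)) (hW : ∀ y, St0.W (f y)) (p : ℕ)
    [Fact p.Prime] (n : ℕ) : BP (fun y => J2 p (ml (f y)) n) := by
  unfold J2
  refine BP.ex fun e => (bp_idem hb hW e).and (BP.ex fun u => (BP.all fun i => ?_).and
    (BP.all fun c => (BP.const _).imp (BP.all fun m => BP.all fun x => BP.all fun z => ?_)))
  · exact (fd_cen (p := fun S (v : Unit → ℕ) => v ()) (FT.var _)).bp hb hW (fun _ => u i)
  · have h1 : FT (fun S (v : (Fin n ⊕ (Fin m ⊕ Fin m)) ⊕ Unit → ℕ) =>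
        lc p (ml S) (v (Sum.inr ())) (fun i => v (Sum.inl (Sum.inl i))) c) :=
      (h p (Fin n) ((Fin n ⊕ (Fin m ⊕ Fin m)) ⊕ Unit) (fun i _ v => v (Sum.inl (Sum.inl i)))
        (fun _ v => v (Sum.inr ())) c (fun _ _ => 0) (fun i => FT.var _) (FT.var _)).1
    have h2 : FT (fun S (v : (Fin n ⊕ (Fin m ⊕ Fin m)) ⊕ Unit → ℕ) =>
        sums p (ml S) (v (Sum.inr ())) (List.ofFn fun j => cm p (ml S)
          (v (Sum.inl (Sum.inr (Sum.inl j)))) (v (Sum.inl (Sum.inr (Sum.inr j)))))) :=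
      ft_sumsFn p (FT.var _) (u := fun j S v => cm p (ml S)
        (v (Sum.inl (Sum.inr (Sum.inl j)))) (v (Sum.inl (Sum.inr (Sum.inr j)))))
        (fun j => ft_cmp p (FT.var _) (FT.var _))
    exact (bp_eq hb hW h1 h2 (Sum.elim (Sum.elim u (Sum.elim x z)) (fun _ => e))).not

end bp

theorem bp (h : S_fd) : S_bp := by
  intro p _ f hb hW n
  exact ⟨bp_J1 h hb hW p n, bp_J2 h hb hW p n⟩

end Pool.Agent.H898.FV
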